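import Pool.Agent.ZRT.StmtsB

/-!
# ZRT, row COR: the core data are contradictory
-/

noncomputable section

open scoped ContDiff Topology RealInnerProductSpace
open Set MeasureTheory

namespace Pool.Agent.ZRT.H60

open Pool.Agent.RF Pool.Agent.MVS Pool.Agent.ZRT

theorem nm_smul (G : E5 → Bil E5) (x v : E5) (c : ℝ) : nm G x (c • v) = |c| * nm G x v := by
  unfold nm
  have : G x (c • v) (c • v) = c ^ 2 * G x v v := by
    simp only [map_smul, ContinuousLinearMap.coe_smul', Pi.smul_apply, smul_eq_mul]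
    ring
  rw [this, Real.sqrt_mul (sq_nonneg c), Real.sqrt_sq_eq_abs]

theorem cor (xb1 : Xb1Statement) (hyp : HypStatement) (ch2 : Ch2Statement) (ch3 : Ch3Statement)
    (ch4 : Ch4Statement) (ch5 : Ch5Statement) (ch6 : Ch6Statement) : CorStatement := by
  intro G ex p q u n L w hC
  have hcyl : IsCyl G := hC.geo.cyl
  have hsec : SecLe G := hC.geo.sec
  have hexp : IsExp G ex := hC.geo.exp
  obtain ⟨-, -, -, -, h5, h6⟩ := xb1 G ex hcyl hexp p hC.hp
  obtain ⟨l, hl0, hlL, r, r', φ, φ', hr, hφ, hr0, hr1, hφ0, hφ1, hb⟩ :=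
    hyp L w hC.L0 hC.Lpi hC.w0 hC.w1
  obtain ⟨H, hH⟩ := ch2 G ex p q u n L w hC
  obtain ⟨z, hz, hz0, hz1, hzb⟩ := ch3 G ex p q u n L w hC l r r' φ φ' hl0 hlL hr hφ hr0 hr1
    hφ0 hφ1 hb
  have h11 := ch4 G ex p q u n L w hC l r φ hl0 hlL
    (continuous_iff_continuousAt.mpr fun s => (hr s).continuousAt)
    (continuous_iff_continuousAt.mpr fun s => (hφ s).continuousAt) hr0 hr1 hφ0 hφ1
    (fun s hs => ⟨(hb s hs).1, (hb s hs).2.1, (hb s hs).2.2.1, (hb s hs).2.2.2.1⟩)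
    z hz hz0 hz1 hzb H hH
  have hm : ex (p, (L / 2) • u) ∈ Om (Fin 5) := by
    have hp0 : p ≠ 0 := hC.hp
    have : 0 < ‖ex (p, (L / 2) • u)‖ := by
      rw [h6]
      exact mul_pos (norm_pos_iff.mpr hp0) (Real.exp_pos _)
    exact norm_pos_iff.mp this
  have hv0 : nm G (ex (p, (L / 2) • u)) (Tf ex p u (L / 2)) = 1 := by
    unfold nm
    rw [h5 u (L / 2), hC.uu, Real.sqrt_one]
  have hU : nm G p (L • Un u n w) = L := by
    rw [nm_smul, abs_of_pos hC.L0]
    have hs : G p n u = 0 := by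
      have := (hcyl.metric.symm p hC.hp) n u
      rw [this, hC.un]
    have : G p (Un u n w) (Un u n w) = 1 := by
      simp only [Un, map_add, map_smul, ContinuousLinearMap.add_apply,
        ContinuousLinearMap.coe_smul', Pi.smul_apply, smul_eq_mul, hC.uu, hC.nn, hC.un, hs]
      nlinarith [Real.sin_sq_add_cos_sq w]
    unfold nm
    rw [this, Real.sqrt_one, mul_one]
  have h1 : (1 : ℝ) ∈ Icc (0 : ℝ) 1 := ⟨zero_le_one, le_refl _⟩
  have hlift : IsLift G ex (ex (p, (L / 2) • u)) (fun t => ex (p, t • (L • Un u n w))) (H 1) := by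
    refine ⟨?_, fun t ht => hH.lt 1 h1 t ht, fun t ht => ?_⟩
    · have : ContinuousOn (fun t : ℝ => ((1 : ℝ), t)) (Icc 0 1) := by fun_prop
      exact hH.cont.comp this fun t ht => ⟨h1, ht⟩
    · rw [hH.eq 1 h1 t ht, one_mul, smul_smul]
  have e0 : nm G (ex (p, (L / 2) • u)) (H 1 0) = L / 2 := by
    rw [hH.base 1 h1, nm_smul, hv0, mul_one, abs_neg, abs_of_pos (by linarith [hC.L0])]
  have e1 : nm G (ex (p, (L / 2) • u)) (H 1 1) = L / 2 := by
    rw [h11, nm_smul, hv0, mul_one, abs_of_pos (by linarith [hC.L0])]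
  exact ch6 G ex p q u n L w hC H hH
    (ch5 G ex hcyl hsec hexp _ hm p hC.hp (L • Un u n w) L (H 1) hC.L0 hC.Lpi hU hlift e0 e1)

end Pool.Agent.ZRT.H60
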